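import Mathlib

set_option autoImplicit false

namespace Pool.Agent.Results.MP_46c3d4_gt.Lindelof

open Set Filter Topology

universe u

/-- `X` is rectifiable: a homeomorphism of `X × X` preserves the first coordinate and sends the
diagonal to `X × {e}`. -/
def Rectifiable (X : Type u) [TopologicalSpace X] : Prop :=
  ∃ (e : X) (φ : X × X ≃ₜ X × X), (∀ x, φ '' ({x} ×ˢ univ) = {x} ×ˢ univ) ∧ ∀ x, φ (x, x) = (x, e)

/-- Arhangel'skii's `p`-space condition, inside the Stone-Cech compactification. -/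
def Feathered (X : Type u) [TopologicalSpace X] : Prop :=
  ∃ γ : ℕ → Set (Set (StoneCech X)), (∀ n, ∀ U ∈ γ n, IsOpen U) ∧
    (∀ n (x : X), ∃ U ∈ γ n, stoneCechUnit x ∈ U) ∧
    ∀ x : X, (⋂ n, ⋃₀ {U | U ∈ γ n ∧ stoneCechUnit x ∈ U}) ⊆ range stoneCechUnit

/-- Countable Souslin number. -/
def Souslin (X : Type u) [TopologicalSpace X] : Prop :=
  ∀ 𝒰 : Set (Set X), (∀ U ∈ 𝒰, IsOpen U ∧ U.Nonempty) → 𝒰.PairwiseDisjoint id → 𝒰.Countable

lemma weak {X ι : Type u} [Nonempty ι] [TopologicalSpace X] (h : Souslin X) (S : Set ι) (U : ι → Set X)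
    (hU : ∀ i, IsOpen (U i)) : ∃ A ⊆ S, A.Countable ∧
      ∀ i ∈ S, ∀ V, IsOpen V → (V ∩ U i).Nonempty → ∃ a ∈ A, (V ∩ U a).Nonempty := by
  obtain ⟨𝒱, h𝒱⟩ := zorn_subset {𝒱 : Set (Set X) | (∀ V ∈ 𝒱, (IsOpen V ∧ V.Nonempty) ∧
      ∃ i ∈ S, V ⊆ U i) ∧ 𝒱.PairwiseDisjoint id} fun c hc hch =>
    ⟨⋃₀ c, ⟨fun V ⟨t, ht, hV⟩ => (hc ht).1 V hV,
      (pairwise_sUnion hch.directedOn).2 fun t ht => (hc ht).2⟩, fun t => subset_sUnion_of_mem⟩
  choose! f f1 f2 using fun V hV => (h𝒱.1.1 V hV).2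
  refine ⟨f '' 𝒱, image_subset_iff.2 f1, (h 𝒱 (fun V hV => (h𝒱.1.1 V hV).1) h𝒱.1.2).image f,
    fun i hi V hV hn => ?_⟩
  by_contra! k
  have d : ∀ W ∈ 𝒱, Disjoint (V ∩ U i) W := fun W hW => disjoint_left.2 fun x hx hx' =>
    (k _ (mem_image_of_mem f hW)).subset ⟨hx.1, f2 W hW hx'⟩
  have := h𝒱.mem_of_prop_insert (x := V ∩ U i) ⟨forall_mem_insert.2
    ⟨⟨⟨hV.inter (hU i), hn⟩, i, hi, inter_subset_right⟩, h𝒱.1.1⟩, h𝒱.1.2.insert fun W hW _ => d W hW⟩
  exact hn.ne_empty (disjoint_self.1 (d _ this))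

theorem result (X : Type u) [TopologicalSpace X] [T35Space X] (hr : Rectifiable X)
    (hp : Feathered X) (hc : Souslin X ∨ TopologicalSpace.SeparableSpace X) : LindelofSpace X := by
  have hs : Souslin X := hc.elim id fun _ 𝒰 h1 h2 =>
    h2.countable_of_isOpen (fun U hU => (h1 U hU).1) fun U hU => (h1 U hU).2
  obtain ⟨e, φ, h1, h2⟩ := hr
  obtain ⟨γ, g1, g2, g3⟩ := hp
  have f1 : ∀ x y, (φ (x, y)).1 = x := fun x y =>
    ((h1 x).subset (mem_image_of_mem φ (show (x, y) ∈ _ from ⟨rfl, trivial⟩))).1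
  let p : X → X → X := fun x y => (φ.symm (x, y)).2
  have pq : ∀ x y, p x (φ (x, y)).2 = y := fun x y =>
    congrArg Prod.snd (show φ.symm (x, _) = (x, y) from
      φ.symm_apply_eq.2 (Prod.ext (f1 x y).symm rfl))
  have qp : ∀ x y, (φ (x, p x y)).2 = y := fun x y => by
    have : (φ.symm (x, y)).1 = x := by
      rw [← f1 (φ.symm (x, y)).1 (φ.symm (x, y)).2]; simp
    rw [show (x, p x y) = φ.symm (x, y) from Prod.ext this.symm rfl]; simp
  choose G G1 G2 using fun n => g2 n e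
  choose V V1 V2 V3 using fun n => exists_mem_nhds_isClosed_subset ((g1 n _ (G1 n)).mem_nhds (G2 n))
  let W : ℕ → Set (StoneCech X) := fun n => ⋂ i ≤ n, V i
  have W1 : ∀ n, IsClosed (W n) := fun n => isClosed_biInter fun i _ => V2 i
  have W2 : Antitone W := fun m n h => biInter_subset_biInter_left fun i hi => le_trans hi h
  have W3 : (⋂ n, W n) ⊆ range stoneCechUnit := fun z hz => g3 e (mem_iInter.2 fun n =>
    ⟨G n, ⟨G1 n, G2 n⟩, V3 n (mem_iInter₂.1 (mem_iInter.1 hz n) n le_rfl)⟩)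
  have ind := (isEmbedding_stoneCechUnit (X := X)).isInducing
  have hK : IsCompact (stoneCechUnit ⁻¹' ⋂ n, W n : Set X) :=
    ind.isCompact_preimage' (isClosed_iInter W1).isCompact W3
  have base : ∀ P, IsOpen P → (stoneCechUnit ⁻¹' ⋂ n, W n : Set X) ⊆ P →
      ∃ n, stoneCechUnit ⁻¹' W n ⊆ P := fun P hP h => by
    obtain ⟨Q, hQ, rfl⟩ := ind.isOpen_iff.1 hP
    obtain ⟨n, hn⟩ := exists_subset_nhds_of_compactSpace W2.directed_ge W1 (U := Q) fun z hz => by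
      obtain ⟨x, rfl⟩ := W3 hz
      exact hQ.mem_nhds (h hz)
    exact ⟨n, preimage_mono hn⟩
  let U : ℕ → Set X := fun n => interior (stoneCechUnit ⁻¹' W n)
  have eU : ∀ n, e ∈ U n := fun n => mem_interior_iff_mem_nhds.2
    (continuous_stoneCechUnit.continuousAt ((biInter_mem (finite_le_nat n)).2 fun i _ => V1 i))
  refine ⟨isLindelof_of_countable_subcover fun {ι} O hO hcov => ?_⟩
  have key : ∀ a : X, ∃ (n : ℕ) (t : Finset ι), ∀ u ∈ U n, ∀ v ∈ U n, p (p a u) v ∈ ⋃ i ∈ t, O i := by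
    intro a
    have c : Continuous fun z : X × X => p (p a z.1) z.2 := by simp only [p]; fun_prop
    obtain ⟨t, ht⟩ := ((hK.prod hK).image c).elim_finite_subcover O hO ((subset_univ _).trans hcov)
    obtain ⟨P, Q, hP, hQ, k1, k2, k3⟩ := generalized_tube_lemma hK hK
      ((isOpen_biUnion fun i _ => hO i).preimage c) (image_subset_iff.1 ht)
    obtain ⟨m, hm⟩ := base P hP k1
    obtain ⟨n, hn⟩ := base Q hQ k2
    exact ⟨max m n, t, fun u hu v hv => k3 (show (u, v) ∈ _ from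
      ⟨hm (W2 (le_max_left _ _) (interior_subset (s := stoneCechUnit ⁻¹' W _) hu)),
        hn (W2 (le_max_right _ _) (interior_subset (s := stoneCechUnit ⁻¹' W _) hv))⟩)⟩
  choose N t ht using key
  have : Nonempty X := ⟨e⟩
  choose A A1 A2 A3 using fun n => weak hs {a | N a = n} (fun a => (fun y => (φ (a, y)).2) ⁻¹' U n)
    fun a => isOpen_interior.preimage (by fun_prop)
  refine ⟨⋃ n, ⋃ a ∈ A n, t a, countable_iUnion fun n => (A2 n).biUnion fun a _ =>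
    (t a).countable_toSet, fun x _ => ?_⟩
  obtain ⟨a, ha, z, z1, z2⟩ := A3 (N x) x rfl ((fun z => (φ (z, x)).2) ⁻¹' U (N x))
    (isOpen_interior.preimage (by fun_prop)) ⟨x, by simp [h2, eU], by simp [h2, eU]⟩
  have := ht a _ ((A1 _ ha).symm ▸ z2) _ ((A1 _ ha).symm ▸ z1)
  rw [pq, pq] at this
  obtain ⟨i, hi, hx⟩ := mem_iUnion₂.1 this
  exact mem_biUnion (mem_iUnion.2 ⟨_, mem_biUnion ha hi⟩) hx

end Pool.Agent.Results.MP_46c3d4_gt.Lindelof
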